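import Pool.Agent.H4.TA.Targets

/-!
# Partial sums of a slowly varying sequence, crude bound (SLB)
-/

set_option autoImplicit false

open Finset Pool.Agent.H43.TC Pool.Agent.H4.TA

namespace Pool.Agent.H13.TAS

theorem pf_SLB : T_SLB := by
  intro q hq hpos ⟨n₀, hn₀⟩
  set c : ℕ → ℝ := fun t => (∑ s ∈ range (t + 1), q s) / ((t + 1) * q t) with hc
  have hden : ∀ t : ℕ, 0 < ((t : ℝ) + 1) * q t := fun t => mul_pos (by positivity) (hpos t)
  have hc0 : ∀ t, 0 ≤ c t := fun t =>
    div_nonneg (sum_nonneg fun s _ => (hpos s).le) (hden t).le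
  set B : ℝ := ∑ t ∈ range (2 * n₀ + 16), c t + 3 with hB
  have hB3 : 3 ≤ B := by
    have := sum_nonneg (s := range (2 * n₀ + 16)) (f := c) fun t _ => hc0 t
    linarith
  refine ⟨B, by linarith, fun t => ?_⟩
  induction t using Nat.strong_induction_on with
  | _ t ih =>
    rcases lt_or_ge t (2 * n₀ + 16) with ht | ht
    · have h1 : c t ≤ B := by
        have := single_le_sum (f := c) (s := range (2 * n₀ + 16)) (fun t _ => hc0 t)
          (mem_range.2 ht)
        linarith
      have h2 : ∑ s ∈ range (t + 1), q s = c t * ((t + 1) * q t) :=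
        (div_mul_cancel₀ _ (hden t).ne').symm
      rw [h2]
      exact mul_le_mul_of_nonneg_right h1 (hden t).le
    · obtain ⟨m, hm⟩ : ∃ m, m = t / 2 := ⟨_, rfl⟩
      have hmt : m < t := by omega
      have h1 := ih m hmt
      have h2 : q m ≤ 5 / 4 * q t := hn₀ m t (by omega) (by omega) (by omega)
      have h3 : ∑ s ∈ range (t + 1), q s =
          ∑ s ∈ range (m + 1), q s + ∑ s ∈ Ico (m + 1) (t + 1), q s :=
        (sum_range_add_sum_Ico _ (by omega)).symm
      have h4 : ∑ s ∈ Ico (m + 1) (t + 1), q s ≤ ((t : ℝ) - m) * q m := by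
        have h5 := sum_le_card_nsmul (Ico (m + 1) (t + 1)) q (q m) fun s hs =>
          hq (by have := mem_Ico.1 hs; omega)
        rw [Nat.card_Ico, nsmul_eq_mul] at h5
        have h6 : ((t + 1 - (m + 1) : ℕ) : ℝ) = (t : ℝ) - m := by
          rw [Nat.cast_sub (by omega)]
          push_cast
          ring
        rwa [h6] at h5
      have hm1 : (m : ℝ) ≤ t / 2 := by
        have : 2 * m ≤ t := by omega
        have : (2 : ℝ) * m ≤ t := by exact_mod_cast this
        linarith
      have hm2 : (t : ℝ) ≤ 2 * m + 1 := by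
        have : t ≤ 2 * m + 1 := by omega
        exact_mod_cast this
      have ht16 : (16 : ℝ) ≤ t := by
        have : 16 ≤ t := by omega
        exact_mod_cast this
      have hqm := hpos m
      have hqt := hpos t
      have h7 : B * ((m + 1) * q m) + ((t : ℝ) - m) * q m ≤ (B + 1) * (t / 2 + 1) * q m := by
        have h8 : B * (m + 1) + ((t : ℝ) - m) ≤ (B + 1) * (t / 2 + 1) := by nlinarith
        nlinarith [mul_le_mul_of_nonneg_right h8 hqm.le]
      have h9 : (B + 1) * (t / 2 + 1) * q m ≤ (B + 1) * (t / 2 + 1) * (5 / 4 * q t) :=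
        mul_le_mul_of_nonneg_left h2 (by positivity)
      have h10 : (B + 1) * ((t : ℝ) / 2 + 1) * (5 / 4) ≤ B * (t + 1) := by nlinarith
      have h11 := mul_le_mul_of_nonneg_right h10 hqt.le
      rw [h3]
      nlinarith

end Pool.Agent.H13.TAS
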